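import Pool.Agent.R176.PolyCert

/-!
Lattice-theoretic consequences of being (combinatorially) a free join.
-/

namespace Pool.Agent.R176.JoinLattice

open Set Pool.Agent.R176.PolyCert

variable {W : Type*} [NormedAddCommGroup W] [NormedSpace ℝ W] [FiniteDimensional ℝ W]

/-- If the affine spans of `A` and `B` are skew, there is a linear functional and a constant
with prescribed behaviour on `A` and `B`. -/
theorem exists_functional {A B : Set W} {p q : W} (hp : p ∈ A) (hq : q ∈ B)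
    (hdim : Module.finrank ℝ (vectorSpan ℝ (A ∪ B)) =
      Module.finrank ℝ (vectorSpan ℝ A) + Module.finrank ℝ (vectorSpan ℝ B) + 1)
    (l : StrongDual ℝ W) (M : ℝ) :
    ∃ (g : StrongDual ℝ W) (κ : ℝ), (∀ x ∈ A, g x + κ = l x) ∧ (∀ y ∈ B, g y + κ = M) := by
  set D₁ := vectorSpan ℝ A
  set D₂ := vectorSpan ℝ B
  let T : (D₁ × D₂ × ℝ) →ₗ[ℝ] W :=
    LinearMap.coprod D₁.subtype (LinearMap.coprod D₂.subtype (LinearMap.toSpanSingleton ℝ W (q - p)))
  have hT : ∀ (a : D₁) (b : D₂) (c : ℝ), T (a, b, c) = a + (b + c • (q - p)) := by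
    intro a b c
    simp [T]
  have hle : vectorSpan ℝ (A ∪ B) ≤ LinearMap.range T := by
    rw [vectorSpan_def, Submodule.span_le]
    rintro _ ⟨x, hx, y, hy, rfl⟩
    have hA : ∀ {u v : W}, u ∈ A → v ∈ A → u - v ∈ D₁ := fun hu hv =>
      vsub_mem_vectorSpan ℝ hu hv
    have hB : ∀ {u v : W}, u ∈ B → v ∈ B → u - v ∈ D₂ := fun hu hv =>
      vsub_mem_vectorSpan ℝ hu hv
    rcases hx with hx | hx <;> rcases hy with hy | hy
    · refine ⟨(⟨x - y, hA hx hy⟩, 0, 0), ?_⟩
      rw [hT]; simp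
    · refine ⟨(⟨x - p, hA hx hp⟩, ⟨q - y, hB hq hy⟩, -1), ?_⟩
      rw [hT]; simp
    · refine ⟨(⟨p - y, hA hp hy⟩, ⟨x - q, hB hx hq⟩, 1), ?_⟩
      rw [hT]; simp
    · refine ⟨(0, ⟨x - y, hB hx hy⟩, 0), ?_⟩
      rw [hT]; simp
  have hker : LinearMap.ker T = ⊥ := by
    have h1 := LinearMap.finrank_range_add_finrank_ker T
    have h2 : Module.finrank ℝ (D₁ × D₂ × ℝ) = Module.finrank ℝ D₁ + Module.finrank ℝ D₂ + 1 := by
      rw [Module.finrank_prod, Module.finrank_prod, Module.finrank_self]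
      ring
    have h3 := Submodule.finrank_mono hle
    have h4 : Module.finrank ℝ (LinearMap.ker T) = 0 := by omega
    exact Submodule.finrank_eq_zero.1 h4
  obtain ⟨G, hG⟩ := LinearMap.exists_leftInverse_of_injective T hker
  let φ : (D₁ × D₂ × ℝ) →ₗ[ℝ] ℝ :=
    LinearMap.coprod ((l : W →ₗ[ℝ] ℝ).comp D₁.subtype)
      (LinearMap.coprod 0 (LinearMap.toSpanSingleton ℝ ℝ (M - l p)))
  let g : StrongDual ℝ W := LinearMap.toContinuousLinearMap (φ.comp G)
  have hg : ∀ (a : D₁) (b : D₂) (c : ℝ), g (a + (b + c • (q - p))) = l a + c * (M - l p) := by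
    intro a b c
    have h1 : G (T (a, b, c)) = (a, b, c) := by
      have := DFunLike.congr_fun hG (a, b, c)
      simpa using this
    rw [hT] at h1
    change φ (G (a + (b + c • (q - p)))) = _
    rw [h1]
    simp [φ]
  refine ⟨g, l p - g p, ?_, ?_⟩
  · intro x hx
    have h := hg ⟨x - p, vsub_mem_vectorSpan ℝ hx hp⟩ 0 0
    simp only [Submodule.coe_zero, zero_smul, add_zero, zero_mul, map_sub] at h
    linarith
  · intro y hy
    have h := hg 0 ⟨y - q, vsub_mem_vectorSpan ℝ hy hq⟩ 1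
    simp only [Submodule.coe_zero, one_smul, zero_add, one_mul, map_zero] at h
    have h2 : y - q + (q - p) = y - p := by abel
    rw [h2, map_sub] at h
    linarith

/-- Functional bounded on the union is bounded on the hull. -/
theorem le_on_hull {S : Set W} {g : StrongDual ℝ W} {M : ℝ} (h : ∀ x ∈ S, g x ≤ M) :
    ∀ x ∈ convexHull ℝ S, g x ≤ M := by
  intro x hx
  have : convexHull ℝ S ⊆ {x : W | g x ≤ M} :=
    convexHull_min h (convex_halfSpace_le g.toLinearMap.isLinear M)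
  exact this hx

theorem lt_on_hull {S : Set W} {g : StrongDual ℝ W} {M : ℝ} (h : ∀ x ∈ S, g x < M) :
    ∀ x ∈ convexHull ℝ S, g x < M := by
  intro x hx
  have : convexHull ℝ S ⊆ {x : W | g x < M} :=
    convexHull_min h (convex_halfSpace_lt g.toLinearMap.isLinear M)
  exact this hx

section join

variable {A B : Set W}

theorem mem_join {x : W} (hA : Convex ℝ A) (hB : Convex ℝ B) (hAne : A.Nonempty)
    (hBne : B.Nonempty) (hx : x ∈ convexHull ℝ (A ∪ B)) :
    ∃ p ∈ A, ∃ q ∈ B, ∃ s t : ℝ, 0 ≤ s ∧ 0 ≤ t ∧ s + t = 1 ∧ s • p + t • q = x := by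
  rw [convexHull_union hAne hBne, hA.convexHull_eq, hB.convexHull_eq, mem_convexJoin] at hx
  obtain ⟨p, hp, q, hq, hx⟩ := hx
  obtain ⟨s, t, hs, ht, hst, h⟩ := hx
  exact ⟨p, hp, q, hq, s, t, hs, ht, hst, h⟩

variable (hA : Convex ℝ A) (hB : Convex ℝ B) (hAne : A.Nonempty) (hBne : B.Nonempty)
  (hdim : Module.finrank ℝ (vectorSpan ℝ (A ∪ B)) =
      Module.finrank ℝ (vectorSpan ℝ A) + Module.finrank ℝ (vectorSpan ℝ B) + 1)

include hA hB hAne hBne hdim

theorem exposed_left : IsExposed ℝ (convexHull ℝ (A ∪ B)) A := by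
  obtain ⟨p, hp⟩ := hAne
  obtain ⟨q, hq⟩ := hBne
  obtain ⟨g, κ, hgA, hgB⟩ := exists_functional hp hq hdim 0 (-1)
  have hle : ∀ x ∈ convexHull ℝ (A ∪ B), g x ≤ -κ := by
    apply le_on_hull
    rintro x (hx | hx)
    · have := hgA x hx
      simp at this
      linarith
    · have := hgB x hx
      linarith
  have hsec : A = {x ∈ convexHull ℝ (A ∪ B) | g x = -κ} := by
    ext x
    constructor
    · intro hx
      refine ⟨subset_convexHull ℝ _ (Or.inl hx), ?_⟩
      have := hgA x hx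
      simp at this
      linarith
    · rintro ⟨hx, hgx⟩
      obtain ⟨p', hp', q', hq', s, t, hs, ht, hst, rfl⟩ :=
        mem_join hA hB ⟨p, hp⟩ ⟨q, hq⟩ hx
      have h1 := hgA p' hp'
      have h2 := hgB q' hq'
      simp at h1
      simp only [map_add, map_smul, smul_eq_mul] at hgx
      have h3 : g p' = -κ := by linarith
      have h4 : g q' = -1 - κ := by linarith
      rw [h3, h4] at hgx
      have hs1' : s = 1 - t := by linarith
      subst hs1'
      have ht0 : t = 0 := by linarith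
      subst ht0
      simpa using hp'
  rw [hsec]
  have := isExposed_section g hle
  rw [← hsec] at *
  exact this

/-- A maximal proper face of the join contains `A` or `B`. -/
theorem coatom_contains {G : Set W} (hG : IsExposed ℝ (convexHull ℝ (A ∪ B)) G)
    (hGne : G.Nonempty)
    (hmax : ∀ G', IsExposed ℝ (convexHull ℝ (A ∪ B)) G' → G ⊆ G' →
      G' = G ∨ G' = convexHull ℝ (A ∪ B)) : A ⊆ G ∨ B ⊆ G := by
  obtain ⟨p, hp⟩ := hAne
  obtain ⟨q, hq⟩ := hBne
  obtain ⟨l, hl⟩ := hG hGne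
  obtain ⟨x0, hx0⟩ := hGne
  have hx0' := hx0
  rw [hl] at hx0'
  obtain ⟨g, κ, hgA, hgB⟩ := exists_functional hp hq hdim l (l x0)
  have hlA : ∀ x ∈ A, l x ≤ l x0 := fun x hx => hx0'.2 x (subset_convexHull ℝ _ (Or.inl hx))
  have hlB : ∀ x ∈ B, l x ≤ l x0 := fun x hx => hx0'.2 x (subset_convexHull ℝ _ (Or.inr hx))
  have hle : ∀ x ∈ convexHull ℝ (A ∪ B), g x ≤ l x0 - κ := by
    apply le_on_hull
    rintro x (hx | hx)
    · have := hgA x hx
      have := hlA x hx
      linarith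
    · have := hgB x hx
      linarith
  have hsec := isExposed_section g hle
  have hsub : G ⊆ {x ∈ convexHull ℝ (A ∪ B) | g x = l x0 - κ} := by
    intro x hx
    have hxJ : x ∈ convexHull ℝ (A ∪ B) := hG.subset hx
    refine ⟨hxJ, ?_⟩
    have hxl : l x = l x0 := by
      have h1 := hx
      rw [hl] at h1
      exact le_antisymm (hx0'.2 x h1.1) (h1.2 x0 hx0'.1)
    obtain ⟨p', hp', q', hq', s, t, hs, ht, hst, rfl⟩ :=
        mem_join hA hB ⟨p, hp⟩ ⟨q, hq⟩ hxJ
    have h1 := hgA p' hp'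
    have h2 := hgB q' hq'
    have h3 := hlA p' hp'
    have h4 := hlB q' hq'
    simp only [map_add, map_smul, smul_eq_mul] at hxl ⊢
    have h5 : s * l p' ≤ s * l x0 := mul_le_mul_of_nonneg_left h3 hs
    have h6 : t * l q' ≤ t * l x0 := mul_le_mul_of_nonneg_left h4 ht
    have h7 : s * l x0 + t * l x0 = l x0 := by rw [← add_mul, hst, one_mul]
    have h8 : s * l p' = s * l x0 := by linarith
    have h9 : g p' = l p' - κ := by linarith
    have h10 : g q' = l x0 - κ := by linarith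
    rw [h9, h10, mul_sub, mul_sub, h8]
    have h11 : s * κ + t * κ = κ := by rw [← add_mul, hst, one_mul]
    linarith
  rcases hmax _ hsec hsub with h | h
  · right
    rw [← h]
    intro x hx
    refine ⟨subset_convexHull ℝ _ (Or.inr hx), ?_⟩
    have := hgB x hx
    linarith
  · left
    intro x hx
    have hxJ : x ∈ convexHull ℝ (A ∪ B) := subset_convexHull ℝ _ (Or.inl hx)
    have h1 : x ∈ {x ∈ convexHull ℝ (A ∪ B) | g x = l x0 - κ} := by rw [h]; exact hxJ
    have h2 := hgA x hx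
    have h3 := h1.2
    rw [hl]
    refine ⟨hxJ, fun y hy => ?_⟩
    have := hx0'.2 y hy
    linarith

end join

/-- A nonempty exposed face of the hull of `S` meets `S`. -/
theorem face_meets {S G : Set W} (hG : IsExposed ℝ (convexHull ℝ S) G) (hGne : G.Nonempty) :
    ∃ x ∈ S, x ∈ G := by
  obtain ⟨l, hl⟩ := hG hGne
  obtain ⟨x0, hx0⟩ := hGne
  have hx0' := hx0
  rw [hl] at hx0'
  by_contra hcon
  push Not at hcon
  have hlt : ∀ x ∈ S, l x < l x0 := by
    intro x hx
    have hxJ := subset_convexHull ℝ S hx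
    refine lt_of_le_of_ne (hx0'.2 x hxJ) fun heq => hcon x hx ?_
    rw [hl]
    exact ⟨hxJ, fun y hy => heq ▸ hx0'.2 y hy⟩
  exact lt_irrefl _ (lt_on_hull hlt x0 hx0'.1)

/-- The main transfer statement: if the face lattice of `P` is isomorphic to the face lattice of a
free join, then `P` has two nonempty disjoint faces such that every vertex lies in one of them and
every facet contains one of them. -/
theorem exists_split {W' : Type*} [NormedAddCommGroup W'] [NormedSpace ℝ W']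
    {P : Set W'} {A B : Set W} (hA : Convex ℝ A) (hB : Convex ℝ B) (hAne : A.Nonempty)
    (hBne : B.Nonempty)
    (hdim : Module.finrank ℝ (vectorSpan ℝ (A ∪ B)) =
      Module.finrank ℝ (vectorSpan ℝ A) + Module.finrank ℝ (vectorSpan ℝ B) + 1)
    (Φ : {F : Set W' // IsExposed ℝ P F} ≃o
      {G : Set W // IsExposed ℝ (convexHull ℝ (A ∪ B)) G}) :
    ∃ F₁ F₂ : Set W', F₁.Nonempty ∧ F₂.Nonempty ∧ IsExposed ℝ P F₁ ∧ IsExposed ℝ P F₂ ∧
      F₁ ∩ F₂ = ∅ ∧ (∀ v, IsExposed ℝ P {v} → v ∈ F₁ ∨ v ∈ F₂) ∧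
      (∀ G, IsExposed ℝ P G → G.Nonempty → G ≠ P →
        (∀ G', IsExposed ℝ P G' → G ⊆ G' → G' = G ∨ G' = P) → F₁ ⊆ G ∨ F₂ ⊆ G) := by
  have hEA : IsExposed ℝ (convexHull ℝ (A ∪ B)) A := exposed_left hA hB hAne hBne hdim
  have hEB : IsExposed ℝ (convexHull ℝ (A ∪ B)) B := by
    have h : Module.finrank ℝ (vectorSpan ℝ (B ∪ A)) =
      Module.finrank ℝ (vectorSpan ℝ B) + Module.finrank ℝ (vectorSpan ℝ A) + 1 := by
      rw [union_comm, hdim]; ring
    have := exposed_left hB hA hBne hAne h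
    rwa [union_comm] at this
  have hdisj : A ∩ B = ∅ := by
    obtain ⟨p, hp⟩ := hAne
    obtain ⟨q, hq⟩ := hBne
    obtain ⟨g, κ, hgA, hgB⟩ := exists_functional hp hq hdim 0 (-1)
    ext x
    simp only [mem_inter_iff, mem_empty_iff_false, iff_false, not_and]
    intro hxA hxB
    have h1 := hgA x hxA
    have h2 := hgB x hxB
    simp at h1
    linarith
  have hemptyP : IsExposed ℝ P (∅ : Set W') := fun h => absurd h (by simp)
  have hemptyJ : IsExposed ℝ (convexHull ℝ (A ∪ B)) (∅ : Set W) := fun h => absurd h (by simp)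
  -- nonemptiness is preserved
  have hne : ∀ G : {G : Set W // IsExposed ℝ (convexHull ℝ (A ∪ B)) G}, G.1.Nonempty →
      (Φ.symm G).1.Nonempty := by
    intro G hG
    by_contra hcon
    rw [not_nonempty_iff_eq_empty] at hcon
    have h1 : Φ.symm G ≤ Φ.symm ⟨∅, hemptyJ⟩ := by
      change (Φ.symm G).1 ⊆ _
      rw [hcon]
      exact empty_subset _
    have h2 : G ≤ ⟨∅, hemptyJ⟩ := Φ.symm.le_iff_le.1 h1
    have h3 : G.1 ⊆ ∅ := h2
    exact hG.ne_empty (subset_empty_iff.1 h3)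
  have hne' : ∀ F : {F : Set W' // IsExposed ℝ P F}, F.1.Nonempty → (Φ F).1.Nonempty := by
    intro G hG
    by_contra hcon
    rw [not_nonempty_iff_eq_empty] at hcon
    have h1 : Φ G ≤ Φ ⟨∅, hemptyP⟩ := by
      change (Φ G).1 ⊆ _
      rw [hcon]
      exact empty_subset _
    have h2 : G ≤ ⟨∅, hemptyP⟩ := Φ.le_iff_le.1 h1
    have h3 : G.1 ⊆ ∅ := h2
    exact hG.ne_empty (subset_empty_iff.1 h3)
  set FA := Φ.symm ⟨A, hEA⟩ with hFA
  set FB := Φ.symm ⟨B, hEB⟩ with hFB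
  refine ⟨FA.1, FB.1, hne _ hAne, hne _ hBne, FA.2, FB.2, ?_, ?_, ?_⟩
  · by_contra hcon
    have hcon' : (FA.1 ∩ FB.1).Nonempty := nonempty_iff_ne_empty.2 hcon
    let I : {F : Set W' // IsExposed ℝ P F} := ⟨FA.1 ∩ FB.1, FA.2.inter FB.2⟩
    have h1 : I ≤ FA := inter_subset_left
    have h2 : I ≤ FB := inter_subset_right
    have h3 : Φ I ≤ ⟨A, hEA⟩ := by
      have := Φ.le_iff_le.2 h1
      rwa [hFA, Φ.apply_symm_apply] at this
    have h4 : Φ I ≤ ⟨B, hEB⟩ := by
      have := Φ.le_iff_le.2 h2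
      rwa [hFB, Φ.apply_symm_apply] at this
    obtain ⟨x, hx⟩ := hne' I hcon'
    have : x ∈ A ∩ B := ⟨h3 hx, h4 hx⟩
    rw [hdisj] at this
    exact this
  · intro v hv
    let a := Φ ⟨{v}, hv⟩
    have hane : a.1.Nonempty := hne' _ (singleton_nonempty v)
    obtain ⟨x, hx, hxa⟩ := face_meets a.2 hane
    have key : ∀ (C : {G : Set W // IsExposed ℝ (convexHull ℝ (A ∪ B)) G}), x ∈ C.1 →
        v ∈ (Φ.symm C).1 := by
      intro C hxC
      let I : {G : Set W // IsExposed ℝ (convexHull ℝ (A ∪ B)) G} := ⟨a.1 ∩ C.1, a.2.inter C.2⟩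
      have hIne : I.1.Nonempty := ⟨x, hxa, hxC⟩
      have h1 : I ≤ a := inter_subset_left
      have h2 : I ≤ C := inter_subset_right
      have h3 : Φ.symm I ≤ ⟨{v}, hv⟩ := by
        have := Φ.symm.le_iff_le.2 h1
        simpa [a] using this
      have h4 : (Φ.symm I).1 ⊆ {v} := h3
      have h5 := hne _ hIne
      have h6 : Φ.symm I ≤ Φ.symm C := Φ.symm.le_iff_le.2 h2
      have h7 : (Φ.symm I).1 ⊆ (Φ.symm C).1 := h6
      obtain ⟨z, hz⟩ := h5
      have h8 : z = v := h4 hz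
      rw [← h8]
      exact h7 hz
    rcases hx with hx | hx
    · left; exact key ⟨A, hEA⟩ hx
    · right; exact key ⟨B, hEB⟩ hx
  · intro G hG hGne hGP hmax
    let b := Φ ⟨G, hG⟩
    have hbne : b.1.Nonempty := hne' _ hGne
    have hPP : IsExposed ℝ P P := IsExposed.refl P
    have hJJ : IsExposed ℝ (convexHull ℝ (A ∪ B)) (convexHull ℝ (A ∪ B)) := IsExposed.refl _
    have htop : Φ.symm ⟨_, hJJ⟩ = ⟨P, hPP⟩ := by
      apply le_antisymm
      · exact (Φ.symm ⟨_, hJJ⟩).2.subset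
      · rw [← Φ.le_iff_le, Φ.apply_symm_apply]
        exact (Φ ⟨P, hPP⟩).2.subset
    have hbmax : ∀ G', IsExposed ℝ (convexHull ℝ (A ∪ B)) G' → b.1 ⊆ G' →
      G' = b.1 ∨ G' = convexHull ℝ (A ∪ B) := by
      intro G' hG' hbG'
      have h1 : b ≤ ⟨G', hG'⟩ := hbG'
      have h2 : (⟨G, hG⟩ : {F : Set W' // IsExposed ℝ P F}) ≤ Φ.symm ⟨G', hG'⟩ := by
        have := Φ.symm.le_iff_le.2 h1
        simpa [b] using this
      rcases hmax _ (Φ.symm ⟨G', hG'⟩).2 h2 with h3 | h3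
      · left
        have h4 : Φ.symm ⟨G', hG'⟩ = ⟨G, hG⟩ := Subtype.ext h3
        have h5 : (⟨G', hG'⟩ : {G : Set W // IsExposed ℝ (convexHull ℝ (A ∪ B)) G}) = b := by
          rw [← Φ.apply_symm_apply ⟨G', hG'⟩, h4]
        exact congrArg Subtype.val h5
      · right
        have h4 : Φ.symm ⟨G', hG'⟩ = Φ.symm ⟨_, hJJ⟩ := by
          rw [htop]
          exact Subtype.ext h3
        have h5 := Φ.symm.injective h4
        exact congrArg Subtype.val h5
    rcases coatom_contains hA hB hAne hBne hdim b.2 hbne hbmax with h | h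
    · left
      have h1 : (⟨A, hEA⟩ : {G : Set W // IsExposed ℝ (convexHull ℝ (A ∪ B)) G}) ≤ b := h
      have h2 := Φ.symm.le_iff_le.2 h1
      have h3 : FA ≤ ⟨G, hG⟩ := by simpa [b, hFA] using h2
      exact h3
    · right
      have h1 : (⟨B, hEB⟩ : {G : Set W // IsExposed ℝ (convexHull ℝ (A ∪ B)) G}) ≤ b := h
      have h2 := Φ.symm.le_iff_le.2 h1
      have h3 : FB ≤ ⟨G, hG⟩ := by simpa [b, hFB] using h2
      exact h3

end Pool.Agent.R176.JoinLattice
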