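import Mathlib

/-!
Small library for verifying explicit convex polytopes in `EuclideanSpace ℝ (Fin n)`.
-/

namespace Pool.Agent.R176.PolyCert

open Set

variable {n : ℕ}

/-- The continuous linear functional with coefficient vector `c`. -/
noncomputable def fn (c : Fin n → ℝ) : StrongDual ℝ (EuclideanSpace ℝ (Fin n)) :=
  ∑ i, c i • (EuclideanSpace.proj i : StrongDual ℝ (EuclideanSpace ℝ (Fin n)))

theorem fn_apply (c : Fin n → ℝ) (x : EuclideanSpace ℝ (Fin n)) :
    fn c x = ∑ i, c i * x i := by
  simp [fn]

/-- The point with coordinate vector `c`. -/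
noncomputable def pt (c : Fin n → ℝ) : EuclideanSpace ℝ (Fin n) := WithLp.toLp 2 c

@[simp] theorem pt_apply (c : Fin n → ℝ) (i : Fin n) : pt c i = c i := rfl

theorem fn_ne_zero {c : Fin n → ℝ} {i : Fin n} (h : c i ≠ 0) : fn c ≠ 0 := by
  intro h0
  apply h
  have h1 := DFunLike.congr_fun h0 (pt (Pi.single i 1))
  rw [fn_apply] at h1
  simpa [Pi.single_apply] using h1

variable {W : Type*} [NormedAddCommGroup W] [NormedSpace ℝ W]

/-- A continuous linear functional attaining its maximum over an open set is zero. -/
theorem eq_zero_of_isMax {U : Set W} (hU : IsOpen U) {x : W} (hx : x ∈ U)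
    (l : StrongDual ℝ W) (hl : ∀ y ∈ U, l y ≤ l x) : l = 0 := by
  have key : ∀ w : W, l w ≤ 0 := by
    intro w
    have hc : Continuous (fun t : ℝ => x + t • w) := by fun_prop
    have hmem : (fun t : ℝ => x + t • w) ⁻¹' U ∈ nhds (0 : ℝ) := by
      apply hc.continuousAt.preimage_mem_nhds
      simpa using hU.mem_nhds hx
    obtain ⟨ε, hε, hball⟩ := Metric.mem_nhds_iff.1 hmem
    have h2 : (ε / 2) ∈ Metric.ball (0 : ℝ) ε := by
      rw [Metric.mem_ball, dist_zero_right, Real.norm_eq_abs, abs_of_pos (by linarith)]
      linarith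
    have h3 := hl _ (hball h2)
    simp only [map_add, map_smul, smul_eq_mul] at h3
    have h4 : ε / 2 * l w ≤ 0 := by linarith
    by_contra hcon
    push Not at hcon
    have : 0 < ε / 2 * l w := mul_pos (by linarith) hcon
    linarith
  ext w
  have h1 := key w
  have h2 := key (-w)
  rw [map_neg] at h2
  have : l w = 0 := by linarith
  simpa using this

/-- A proper nonempty exposed face of a polyhedron given by finitely many inequalities lies on one
of the bounding hyperplanes. -/
theorem exposed_subset_hyperplane {κ : Type*} [Finite κ] (a : κ → StrongDual ℝ W) (b : κ → ℝ)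
    {F : Set W} (hF : IsExposed ℝ {x : W | ∀ j, a j x ≤ b j} F) (hne : F.Nonempty)
    (hFP : F ≠ {x : W | ∀ j, a j x ≤ b j}) : ∃ j, ∀ x ∈ F, a j x = b j := by
  classical
  by_contra hcon
  push Not at hcon
  set P : Set W := {x : W | ∀ j, a j x ≤ b j} with hP
  have hPconv : Convex ℝ P := by
    have : P = ⋂ j, {x : W | a j x ≤ b j} := by
      ext x; simp [hP]
    rw [this]
    exact convex_iInter fun j => convex_halfSpace_le (a j).toLinearMap.isLinear (b j)
  have hFconv : Convex ℝ F := hF.convex hPconv
  have hFsub : F ⊆ P := hF.subset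
  have key : ∀ s : Finset κ, ∃ x ∈ F, ∀ j ∈ s, a j x < b j := by
    intro s
    induction s using Finset.induction_on with
    | empty =>
      obtain ⟨x, hx⟩ := hne
      exact ⟨x, hx, by simp⟩
    | insert j s hj ih =>
      obtain ⟨x, hx, hxs⟩ := ih
      obtain ⟨y, hy, hyj⟩ := hcon j
      have hyj' : a j y < b j := lt_of_le_of_ne (hFsub hy j) hyj
      refine ⟨(1/2 : ℝ) • x + (1/2 : ℝ) • y, hFconv hx hy (by norm_num) (by norm_num) (by norm_num), ?_⟩
      intro k hk
      rw [Finset.mem_insert] at hk
      simp only [map_add, map_smul, smul_eq_mul]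
      rcases hk with rfl | hk
      · have h1 := hFsub hx k
        linarith
      · have h1 := hxs k hk
        have h2 := hFsub hy k
        linarith
  haveI := Fintype.ofFinite κ
  obtain ⟨x, hx, hxs⟩ := key Finset.univ
  obtain ⟨l, hl⟩ := hF hne
  have hxmax : ∀ y ∈ P, l y ≤ l x := by
    have := hx
    rw [hl] at this
    exact this.2
  set U : Set W := ⋂ j, {x : W | a j x < b j} with hU
  have hUo : IsOpen U := isOpen_iInter_of_finite fun j => isOpen_lt (a j).continuous continuous_const
  have hxU : x ∈ U := by
    rw [hU, mem_iInter]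
    intro j
    exact hxs j (Finset.mem_univ j)
  have hUP : U ⊆ P := by
    intro y hy j
    rw [hU, mem_iInter] at hy
    exact (hy j).le
  have hl0 : l = 0 := eq_zero_of_isMax hUo hxU l fun y hy => hxmax y (hUP hy)
  apply hFP
  rw [hl, hl0]
  ext y
  simp

/-- `l` is constant on `F` so it vanishes on `vectorSpan F`. -/
theorem eq_of_mem_vectorSpan {F : Set W} (l : StrongDual ℝ W) {c : ℝ} (hl : ∀ x ∈ F, l x = c)
    {w : W} (hw : w ∈ vectorSpan ℝ F) : l w = 0 := by
  have : vectorSpan ℝ F ≤ LinearMap.ker (l : W →ₗ[ℝ] ℝ) := by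
    rw [vectorSpan_def, Submodule.span_le]
    rintro _ ⟨x, hx, y, hy, rfl⟩
    simp [hl x hx, hl y hy]
  have h := this hw
  simpa using h

theorem finrank_ker_add_one [FiniteDimensional ℝ W] {l : StrongDual ℝ W} (hl : l ≠ 0) :
    Module.finrank ℝ (LinearMap.ker (l : W →ₗ[ℝ] ℝ)) + 1 = Module.finrank ℝ W := by
  have h1 := LinearMap.finrank_range_add_finrank_ker (l : W →ₗ[ℝ] ℝ)
  have h2 : LinearMap.range (l : W →ₗ[ℝ] ℝ) = ⊤ := by
    apply LinearMap.range_eq_top.2
    apply LinearMap.surjective
    intro h
    apply hl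
    ext x
    have := DFunLike.congr_fun h x
    simpa using this
  rw [h2, finrank_top, Module.finrank_self] at h1
  omega

/-- An exposed face of codimension one lying on a hyperplane is the whole hyperplane section. -/
theorem exposed_eq_hyperplane_section [FiniteDimensional ℝ W] {P F : Set W}
    (hF : IsExposed ℝ P F) (hne : F.Nonempty) {a : StrongDual ℝ W} (ha : a ≠ 0) {β : ℝ}
    (hFa : ∀ x ∈ F, a x = β)
    (hdim : Module.finrank ℝ (vectorSpan ℝ F) + 1 = Module.finrank ℝ W) :
    F = {x ∈ P | a x = β} := by
  have hle : vectorSpan ℝ F ≤ LinearMap.ker (a : W →ₗ[ℝ] ℝ) := by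
    intro w hw
    have := eq_of_mem_vectorSpan a hFa hw
    simpa using this
  have hfr := finrank_ker_add_one ha
  have heq : vectorSpan ℝ F = LinearMap.ker (a : W →ₗ[ℝ] ℝ) :=
    Submodule.eq_of_le_of_finrank_le hle (by omega)
  obtain ⟨l, hl⟩ := hF hne
  obtain ⟨x0, hx0⟩ := hne
  have hlc : ∀ x ∈ F, l x = l x0 := by
    intro x hx
    have h1 := hx
    have h2 := hx0
    rw [hl] at h1 h2
    exact le_antisymm (h2.2 x h1.1) (h1.2 x0 h2.1)
  apply Subset.antisymm
  · intro x hx
    exact ⟨hF.subset hx, hFa x hx⟩
  · rintro y ⟨hyP, hya⟩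
    have hmem : y - x0 ∈ vectorSpan ℝ F := by
      rw [heq]
      simp [hya, hFa x0 hx0]
    have h0 := eq_of_mem_vectorSpan l hlc hmem
    rw [map_sub] at h0
    rw [hl]
    refine ⟨hyP, fun z hz => ?_⟩
    have h2 := hx0
    rw [hl] at h2
    have := h2.2 z hz
    linarith

/-- A hyperplane section by a valid inequality is exposed. -/
theorem isExposed_section {P : Set W} (a : StrongDual ℝ W) {β : ℝ} (h : ∀ x ∈ P, a x ≤ β) :
    IsExposed ℝ P {x ∈ P | a x = β} := by
  rintro ⟨x0, hx0P, hx0⟩
  refine ⟨a, ?_⟩
  ext x
  constructor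
  · rintro ⟨hx, hxβ⟩
    exact ⟨hx, fun y hy => hxβ ▸ h y hy⟩
  · rintro ⟨hx, hmax⟩
    refine ⟨hx, le_antisymm (h x hx) ?_⟩
    rw [← hx0]
    exact hmax x0 hx0P

/-- A point that is the unique maximiser of a functional over the generating set is an exposed
point of the hull. -/
theorem isExposed_singleton {S : Set W} {p : W} (hp : p ∈ S) (l : StrongDual ℝ W)
    (h : ∀ x ∈ S, x ≠ p → l x < l p) : IsExposed ℝ (convexHull ℝ S) {p} := by
  have hconv : Convex ℝ ({x : W | l x < l p} ∪ {p}) := by
    intro x hx y hy s t hs ht hst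
    rcases hx with hx | hx <;> rcases hy with hy | hy
    · left
      simp only [mem_setOf_eq] at *
      simp only [map_add, map_smul, smul_eq_mul]
      rcases hs.eq_or_lt with rfl | hs'
      · have : t = 1 := by linarith
        subst this
        simpa using hy
      · have : s * l x < s * l p := mul_lt_mul_of_pos_left hx hs'
        have h2 : t * l y ≤ t * l p := mul_le_mul_of_nonneg_left hy.le ht
        have h3 : s * l p + t * l p = l p := by rw [← add_mul, hst, one_mul]
        linarith
    · rw [mem_singleton_iff] at hy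
      subst hy
      rcases hs.eq_or_lt with rfl | hs'
      · have : t = 1 := by linarith
        subst this
        right; simp
      · left
        simp only [mem_setOf_eq] at *
        simp only [map_add, map_smul, smul_eq_mul]
        have : s * l x < s * l y := mul_lt_mul_of_pos_left hx hs'
        have h3 : s * l y + t * l y = l y := by rw [← add_mul, hst, one_mul]
        linarith
    · rw [mem_singleton_iff] at hx
      subst hx
      rcases ht.eq_or_lt with rfl | ht'
      · have : s = 1 := by linarith
        subst this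
        right; simp
      · left
        simp only [mem_setOf_eq] at *
        simp only [map_add, map_smul, smul_eq_mul]
        have : t * l y < t * l x := mul_lt_mul_of_pos_left hy ht'
        have h3 : s * l x + t * l x = l x := by rw [← add_mul, hst, one_mul]
        linarith
    · rw [mem_singleton_iff] at hx hy
      subst hx; subst hy
      right
      rw [← add_smul, hst, one_smul]
      rfl
  have hsub : convexHull ℝ S ⊆ {x : W | l x < l p} ∪ {p} := by
    apply convexHull_min _ hconv
    intro x hx
    by_cases hxp : x = p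
    · right; exact hxp
    · left; exact h x hx hxp
  intro _
  refine ⟨l, ?_⟩
  ext x
  constructor
  · rintro rfl
    refine ⟨subset_convexHull ℝ S hp, fun y hy => ?_⟩
    rcases hsub hy with hy' | hy'
    · exact le_of_lt hy'
    · rw [mem_singleton_iff] at hy'
      rw [hy']
  · rintro ⟨hx, hmax⟩
    rcases hsub hx with hx' | hx'
    · have := hmax p (subset_convexHull ℝ S hp)
      simp only [mem_setOf_eq] at hx'
      linarith
    · exact hx'

theorem extreme_of_isExposed_singleton {P : Set W} {p : W} (h : IsExposed ℝ P {p}) :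
    p ∈ P.extremePoints ℝ :=
  exposedPoints_subset_extremePoints (mem_exposedPoints_iff_exposed_singleton.2 h)

/-- Linear independence of integer vectors from an integer left inverse (up to scaling). -/
theorem linearIndependent_of_cert {m : ℕ} (M L : Fin m → Fin n → ℤ) (D : Fin m → ℤ)
    (hD : ∀ i, D i ≠ 0)
    (h : ∀ i i', ∑ k, L i k * M i' k = if i = i' then D i else 0) :
    LinearIndependent ℝ (fun i => pt fun k => (M i k : ℝ)) := by
  rw [Fintype.linearIndependent_iff]
  intro g hg i
  have h1 : fn (fun k => (L i k : ℝ)) (∑ i', g i' • pt fun k => (M i' k : ℝ)) = 0 := by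
    rw [hg, map_zero]
  rw [map_sum] at h1
  have h2 : ∀ i', fn (fun k => (L i k : ℝ)) (g i' • pt fun k => (M i' k : ℝ)) =
      if i = i' then g i' * D i else 0 := by
    intro i'
    rw [map_smul, fn_apply]
    simp only [pt_apply]
    have h3 : (∑ k, (L i k : ℝ) * (M i' k : ℝ)) = ((∑ k, L i k * M i' k : ℤ) : ℝ) := by
      push_cast
      rfl
    rw [h3, h]
    split_ifs <;> simp
  simp only [h2] at h1
  simp only [Finset.sum_ite_eq, Finset.mem_univ, if_true, mul_eq_zero, Int.cast_eq_zero] at h1
  exact h1.resolve_right (hD i)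

/-- A submodule containing `m` linearly independent vectors has rank at least `m`. -/
theorem le_finrank_of_linearIndependent [FiniteDimensional ℝ W] {m : ℕ} {S : Submodule ℝ W}
    {w : Fin m → W} (hw : ∀ i, w i ∈ S) (hli : LinearIndependent ℝ w) :
    m ≤ Module.finrank ℝ S := by
  have h1 : Submodule.span ℝ (range w) ≤ S := by
    rw [Submodule.span_le]
    rintro _ ⟨i, rfl⟩
    exact hw i
  have h2 := finrank_span_eq_card hli
  have h3 := Submodule.finrank_mono h1
  simp at h2
  omega

end Pool.Agent.R176.PolyCert
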